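import Pool.Agent.Lib.MP_84d915_co.Main

/-!
MP_84d915_co: `r(d) = 3` for every `d ≥ 3`: the least positive `k` such that some
1-factorization of the hypercube `Q_d` has the property that the union of every `k` distinct
factors is connected equals `3`.
-/

namespace Pool.Agent.Results.MP_84d915_co.FullAnswer

open Pool.Agent.Lib.MP_84d915_co

theorem result (d : ℕ) (hd : 3 ≤ d) : r d = 3 := r_eq d hd

end Pool.Agent.Results.MP_84d915_co.FullAnswer
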